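import Pool.Agent.KS6_38.BZ.Main

set_option autoImplicit false

/-!
For every cardinal `κ ≥ ℵ₃` there is a distributive r-lattice without nilpotent elements, in which
every compact element is principal, with exactly `κ` compact elements, which is not representable.
-/

namespace Pool.Agent.Results.MP_173d24_al.EveryCardinal

open Pool.Agent.Helper455.Bez Pool.Agent.KS6_38.BZ Cardinal Ideal

universe u v

section good
variable {S : Type u} [CommSemiring S] (hS : Good S)
include hS

theorem comp_eq_span (E : Ideal S) (hE : IsComp E) : ∃ s : S, E = span {s} := by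
  classical
  obtain ⟨t, ht, hle⟩ := hE {F | ∃ x ∈ E, F = span {x}} (by rw [Good.sSup_span])
  have h1 : ∀ F : Ideal S, ∃ x : S, F ∈ t → x ∈ E ∧ F = span {x} := by
    intro F
    by_cases hF : F ∈ t
    · obtain ⟨x, hx, rfl⟩ := ht hF
      exact ⟨x, fun _ => ⟨hx, rfl⟩⟩
    · exact ⟨0, fun h => (hF h).elim⟩
  choose f hf using h1
  refine ⟨∑ F ∈ t, f F, ?_⟩
  rw [← finset_sup_span hS t f]
  apply le_antisymm
  · refine hle.trans (sSup_le fun F hF => ?_)
    have h2 := (hf F hF).2
    conv_lhs => rw [h2]
    exact Finset.le_sup (f := fun y => (span {f y} : Ideal S)) hF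
  · refine Finset.sup_le fun F hF => ?_
    rw [span_singleton_le_iff_mem]
    exact (hf F hF).1

theorem comp_prin (E : Ideal S) (hE : IsComp E) : IsPrin E := by
  obtain ⟨s, rfl⟩ := comp_eq_span hS E hE
  exact hS.isPrin s

noncomputable def compEquiv : S ≃ {E : Ideal S // IsComp E} :=
  Equiv.ofBijective (fun s => ⟨span {s}, Good.isComp_span s⟩)
    ⟨fun a b h => hS.span_inj (congrArg Subtype.val h), fun E => by
      obtain ⟨s, hs⟩ := comp_eq_span hS E.1 E.2
      exact ⟨s, Subtype.ext hs.symm⟩⟩

end good

theorem ideal_sq {S : Type u} [CommSemiring S] (hs : ∀ x : S, x * x = 0 → x = 0) (A : Ideal S)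
    (h : A * A = ⊥) : A = ⊥ := by
  rw [eq_bot_iff]
  intro x hx
  have h1 : x * x ∈ A * A := Ideal.mul_mem_mul hx hx
  rw [h] at h1
  exact (Submodule.mem_bot S).2 (hs x ((Submodule.mem_bot S).1 h1))

section Secs
open Classical

variable {I : Type u}

theorem V_sq {x : V} (h : x * x = 0) : x = 0 := by
  rcases Pool.Agent.Helper455.Bez.cases x with rfl | ⟨k, l, rfl⟩
  · rfl
  · rw [m_mul] at h; exact (m_ne_zero _ _ h).elim

theorem sec_sq {s : Sec I} (h : s * s = 0) : s = 0 := by
  have h1 : s.1 * s.1 = 0 := congrArg Subtype.val h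
  apply Subtype.ext
  refine Prod.ext ?_ (Prod.ext ?_ ?_)
  · funext a b c d
    exact V_sq (congrFun (congrFun (congrFun (congrFun (congrArg Prod.fst h1) a) b) c) d)
  · funext a b c
    exact V_sq (congrFun (congrFun (congrFun (congrArg (fun z => z.2.1) h1) a) b) c)
  · funext a b c d
    exact V_sq (congrFun (congrFun (congrFun (congrFun (congrArg (fun z => z.2.2) h1) a) b) c) d)

/-- the section concentrated at the index `i` of the first kind -/
noncomputable def e1 (i : I) : Sec I :=
  mkS {i} (fun a _ _ _ => if a = some i then m 1 1 else 0)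
    (by
      intro a b c d
      show (if _ then _ else (0 : V)) ∈ _
      split_ifs with h
      · subst h
        unfold X
        split_ifs with h1 h2 h3
        · exact m_mem_Vp (by omega)
        · exact Or.inr ⟨1, rfl, by omega⟩
        · exact absurd rfl h2
        · exact absurd rfl h2
      · exact zero_mem _)
    (by
      intro a b c d
      show (if _ then _ else (0 : V)) = if _ then _ else (0 : V)
      simp only [rs_eq_some_iff (Finset.mem_singleton_self i)])

theorem e1_inj : Function.Injective (e1 : I → Sec I) := by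
  classical
  intro i j h
  by_contra hij
  have h1 : (e1 i).1.1 (some i) none none none = (e1 j).1.1 (some i) none none none := by rw [h]
  have h2 : (e1 i).1.1 (some i) none none none = m 1 1 := by
    show (if _ then _ else (0 : V)) = _
    rw [if_pos rfl]
  have h3 : (e1 j).1.1 (some i) none none none = 0 := by
    show (if _ then _ else (0 : V)) = _
    rw [if_neg (by simpa using hij)]
  rw [h2, h3] at h1
  exact m_ne_zero _ _ h1

instance : Countable V := by
  have : Function.Injective (Tropical.untrop : V → WithTop (ℤ ×ₗ ℤ)) := Tropical.untrop_injective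
  have h2 : Countable (ℤ ×ₗ ℤ) := inferInstanceAs (Countable (ℤ × ℤ))
  have h3 : Countable (WithTop (ℤ ×ₗ ℤ)) := inferInstanceAs (Countable (Option (ℤ ×ₗ ℤ)))
  exact this.countable

theorem exists_rs (F : Finset I) (a : Option I) :
    ∃ a' : Option F, rs F a = a'.map Subtype.val := by
  cases a with
  | none => exact ⟨none, rfl⟩
  | some i =>
    by_cases hi : i ∈ F
    · exact ⟨some ⟨i, hi⟩, by rw [rs_mem hi]; rfl⟩
    · exact ⟨none, by rw [rs_not_mem hi]; rfl⟩

theorem countable_supp (F : Finset I) : Countable {s : Sec I // Supp F s.1} := by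
  let g : {s : Sec I // Supp F s.1} →
      (Option F → Option F → Option F → Option F → V) × (F → F → F → V) × (F → F → F → F → V) :=
    fun s => (fun a b c d => s.1.1.1 (a.map Subtype.val) (b.map Subtype.val) (c.map Subtype.val)
      (d.map Subtype.val), fun i j l => s.1.1.2.1 i j l, fun i j k l => s.1.1.2.2 i j k l)
  have hg : Function.Injective g := by
    intro s t h
    apply Subtype.ext
    apply Subtype.ext
    refine eq_of_supp s.2 t.2 ?_ ?_ ?_
    · intro a b c d
      rw [s.2.x a b c d, t.2.x a b c d]
      obtain ⟨a', ha⟩ := exists_rs F a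
      obtain ⟨b', hb⟩ := exists_rs F b
      obtain ⟨c', hc⟩ := exists_rs F c
      obtain ⟨d', hd⟩ := exists_rs F d
      rw [ha, hb, hc, hd]
      exact congrFun (congrFun (congrFun (congrFun (congrArg Prod.fst h) a') b') c') d'
    · rintro i j l ⟨hi, hj, hl⟩
      exact congrFun (congrFun (congrFun (congrArg (fun z => z.2.1) h) ⟨i, hi⟩) ⟨j, hj⟩) ⟨l, hl⟩
    · rintro i j k l ⟨hi, hj, hk, hl⟩
      exact congrFun (congrFun (congrFun (congrFun (congrArg (fun z => z.2.2) h) ⟨i, hi⟩) ⟨j, hj⟩)
        ⟨k, hk⟩) ⟨l, hl⟩
  have c1 : Countable (Option F → V) := inferInstance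
  have c2 : Countable (Option F → Option F → V) := inferInstance
  have c3 : Countable (Option F → Option F → Option F → V) := inferInstance
  have c4 : Countable (Option F → Option F → Option F → Option F → V) := inferInstance
  have d1 : Countable (F → V) := inferInstance
  have d2 : Countable (F → F → V) := inferInstance
  have d3 : Countable (F → F → F → V) := inferInstance
  have d4 : Countable (F → F → F → F → V) := inferInstance
  exact hg.countable

theorem mk_Sec (hI : ℵ₀ ≤ #I) : #(Sec I) = #I := by
  classical
  have : Infinite I := Cardinal.infinite_iff.2 hI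
  apply le_antisymm
  · have h1 : #(Sec I) = #(Set.univ : Set (Sec I)) := Cardinal.mk_univ.symm
    have h2 : (Set.univ : Set (Sec I)) ⊆ ⋃ F : Finset I, {s : Sec I | Supp F s.1} := by
      intro s _
      obtain ⟨F, hF⟩ := s.2.2
      exact Set.mem_iUnion.2 ⟨F, hF⟩
    rw [h1]
    refine (Cardinal.mk_le_mk_of_subset h2).trans (Cardinal.mk_iUnion_le_sum_mk.trans ?_)
    refine (Cardinal.sum_le_sum _ (fun _ : Finset I => ℵ₀) fun F => ?_).trans ?_
    · exact Cardinal.mk_le_aleph0_iff.2 (countable_supp F)
    · rw [Cardinal.sum_const', Cardinal.mk_finset_of_infinite]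
      exact (mul_le_mul' le_rfl hI).trans (Cardinal.mul_eq_self hI).le
  · exact Cardinal.mk_le_of_injective e1_inj

end Secs

theorem package {S : Type u} [CommSemiring S] (hS : Good S) (hs : ∀ x : S, x * x = 0 → x = 0)
    (κ : Cardinal.{u}) (hc : #S = κ) (hn : ¬ Representable.{u, v} (Ideal S)) :
    ∃ (L : Type u) (_ : CompleteLattice L) (_ : CommMonoid L),
      IsRLattice L ∧ Distributive L ∧ WeakUnion L ∧ (∀ E : L, IsComp E → IsPrin E) ∧
      (∀ A : L, A * A = ⊥ → A = ⊥) ∧ #{E : L // IsComp E} = κ ∧ ¬ Representable.{u, v} L :=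
  ⟨Ideal S, inferInstance, inferInstance, hS.isRLattice, hS.distrib, hS.weakUnion, comp_prin hS,
    ideal_sq hs, by rw [← Cardinal.mk_congr (compEquiv hS)]; exact hc, hn⟩

/-- For every cardinal `κ ≥ ℵ₃` there is a multiplicative lattice `L` with the following properties:
it is a distributive r-lattice which satisfies the weak union condition, even every compact element
of `L` is principal; `L` has no nilpotent elements except `0`; `L` has exactly `κ` compact elements;
and `L` is not isomorphic, as a multiplicative lattice, to the lattice of ideals of a commutative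
ring (in any universe). -/
theorem result (κ : Cardinal.{u}) (hκ : aleph 3 ≤ κ) :
    ∃ (L : Type u) (_ : CompleteLattice L) (_ : CommMonoid L),
      IsRLattice L ∧ Distributive L ∧ WeakUnion L ∧ (∀ E : L, IsComp E → IsPrin E) ∧
      (∀ A : L, A * A = ⊥ → A = ⊥) ∧ #{E : L // IsComp E} = κ ∧ ¬ Representable.{u, v} L := by
  induction κ using Cardinal.inductionOn with
  | _ I =>
    have h0 : ℵ₀ ≤ #I := (Cardinal.aleph0_le_aleph 3).trans hκ
    exact package good_Sec (fun x => sec_sq) _ (mk_Sec h0) (not_representable hκ)

end Pool.Agent.Results.MP_173d24_al.EveryCardinal
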